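import Pool.Agent.MP_df548b_lc.Mg.Main

namespace Pool.Agent.Results.MP_df548b_lc.NoLogHeight

open Pool.Agent.MP_df548b_lc

/-- There is no constant `C` such that every set of `n ≥ 3` pairwise disjoint segments in the
plane has a binary space partition (arbitrary cutting lines) with at most
`C n log n / log log n` leaves and height at most `C log n`. -/
theorem result :
    ¬ ∃ C : ℝ, ∀ n : ℕ, 3 ≤ n → ∀ S : Finset (Set (ℝ × ℝ)), S.card = n →
      (∀ s ∈ S, ∃ p q : ℝ × ℝ, p ≠ q ∧ s = segment ℝ p q) →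
      (S : Set (Set (ℝ × ℝ))).PairwiseDisjoint id →
      ∃ T : BinaryTree (ℝ × ℝ × ℝ), IsBSP S Set.univ T ∧
        (T.numLeaves : ℝ) ≤ C * n * Real.log n / Real.log (Real.log n) ∧
        (T.height : ℝ) ≤ C * Real.log n := by
  rintro ⟨C, hC⟩
  obtain ⟨n, hn, S, h1, h2, h3, h4⟩ := no_shallow_small_bsp C
  obtain ⟨T, hT, hs, hh⟩ := hC n hn S h1 h2 h3
  exact absurd (h4 T hT hs) (not_lt.mpr hh)

end Pool.Agent.Results.MP_df548b_lc.NoLogHeight
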